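import Pool.Agent.Lib.MP_0546f5_an.Bridge
import Pool.Agent.Lib.MP_0546f5_an.PN.Sanity

/-!
The answer to Q1 for the three classes: there is no non-amenable (a) polynormed algebra,
(b) Banach algebra, (c) C*-algebra all of whose left modules are flat.

The definitions for (a) are in `Pool/Agent/Lib/MP_0546f5_an/PN/Stmt.lean`, those for (b) and (c)
in `Pool/Agent/Lib/MP_0546f5_an/Stmt.lean`.
-/

namespace Pool.Agent.Results.MP_0546f5_an.FlatAmenable

universe u

open Pool.Agent.Lib.MP_0546f5_an

/-- (a) Every complete Hausdorff locally convex algebra (with or without unit) with jointly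
continuous multiplication all of whose left modules are flat is amenable.
(b) Every Banach algebra (with or without unit) all of whose left Banach modules are flat is
amenable. (c) The same for C*-algebras. -/
theorem result :
    (∀ (A : Type u) [NonUnitalRing A] [Module ℂ A] [IsScalarTower ℂ A A] [SMulCommClass ℂ A A]
      [UniformSpace A] [PN.IsPolynormed A] [ContinuousMul A],
      PN.AllLeftModulesFlat A → PN.IsAmenable A) ∧
    (∀ (A : Type u) [NonUnitalNormedRing A] [NormedSpace ℂ A] [IsScalarTower ℂ A A]
      [SMulCommClass ℂ A A] [CompleteSpace A], AllLeftModulesFlat A → IsAmenable A) ∧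
    (∀ (A : Type u) [NonUnitalCStarAlgebra A], AllLeftModulesFlat A → IsAmenable A) :=
  ⟨fun _ _ _ _ _ _ _ _ h => PN.isAmenable_of_allLeftModulesFlat h,
    fun _ _ _ _ _ _ h => isAmenable_of_allLeftModulesFlat h,
    fun _ _ h => isAmenable_of_allLeftModulesFlat h⟩

end Pool.Agent.Results.MP_0546f5_an.FlatAmenable
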